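import Pool.Agent.V11230.PathSysRed
import Pool.Agent.NPC.Classes
import Pool.Agent.NPC.Dec

/-!
# Deciding whether a consistent path system has a reduction is NP-hard

All path systems of the reduction have diameter two: for each non-adjacent pair `u, v` one chooses a
common neighbour `m` and takes the path `u, m, v`.  Such a system is always consistent, and a
reduction is a non-constant two-colouring of the vertices in which `m` has the colour of `u` and `v`
whenever these have the same colour.  A computer search found such a system on eight vertices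
without reduction.  Two copies of it give two constants; in all reductions they have different
colours, since otherwise all other vertices are forced to have their common colour.  With the two
constants the constraints express implications, `¬ x ∨ ¬ y`, `x ∨ y`, and with one more vertex the
clauses with three literals.
-/

set_option autoImplicit false

namespace Pool.Agent.NPC.V11230.PS

open Pool.Agent.NPC Pool.Agent.H692R2

/-! ### Polynomial time -/

section

variable {α : Type} [TEnc α]

theorem poly_same {i j : α → ℕ} (hi : Poly i) (hj : Poly j) :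
    Poly (fun p : α × (ℕ × ℕ × ℕ) => (decide (p.2.1 = i p.1) && decide (p.2.2.1 = j p.1)) ||
      (decide (p.2.1 = j p.1) && decide (p.2.2.1 = i p.1))) := by
  have hi' : Poly (fun p : α × (ℕ × ℕ × ℕ) => i p.1) := hi.comp (Poly.fst Poly.id)
  have hj' : Poly (fun p : α × (ℕ × ℕ × ℕ) => j p.1) := hj.comp (Poly.fst Poly.id)
  have h1 : Poly (fun p : α × (ℕ × ℕ × ℕ) => p.2.1) := Poly.fst (Poly.snd Poly.id)
  have h2 : Poly (fun p : α × (ℕ × ℕ × ℕ) => p.2.2.1) := Poly.fst (Poly.snd (Poly.snd Poly.id))
  exact Poly.or (Poly.and (Poly.decide_eq h1 hi') (Poly.decide_eq h2 hj'))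
    (Poly.and (Poly.decide_eq h1 hj') (Poly.decide_eq h2 hi'))

theorem poly_isC {cs : α → List (ℕ × ℕ × ℕ)} {i j : α → ℕ} (hc : Poly cs) (hi : Poly i)
    (hj : Poly j) : Poly (fun a => isC (cs a) (i a) (j a)) := by
  unfold isC
  exact Poly.any (l := cs) (p := fun a c => (decide (c.1 = i a) && decide (c.2.1 = j a)) ||
    (decide (c.1 = j a) && decide (c.2.1 = i a))) hc (poly_same hi hj)

theorem poly_midOf {cs : α → List (ℕ × ℕ × ℕ)} {i j : α → ℕ} (hc : Poly cs) (hi : Poly i)
    (hj : Poly j) : Poly (fun a => midOf (cs a) (i a) (j a)) := by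
  unfold midOf
  have h1 : Poly (fun a => (cs a).filter (fun c => (decide (c.1 = i a) && decide (c.2.1 = j a)) ||
      (decide (c.1 = j a) && decide (c.2.1 = i a)))) :=
    Poly.filter (l := cs) (p := fun a c => (decide (c.1 = i a) && decide (c.2.1 = j a)) ||
      (decide (c.1 = j a) && decide (c.2.1 = i a))) hc (poly_same hi hj)
  exact Poly.getD (Poly.map (F := fun _ (c : ℕ × ℕ × ℕ) => c.2.2) h1
    (Poly.snd (Poly.snd (Poly.snd Poly.id)))) (Poly.const 0) (Poly.const 0)

theorem poly_pth {cs : α → List (ℕ × ℕ × ℕ)} {i j : α → ℕ} (hc : Poly cs) (hi : Poly i)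
    (hj : Poly j) : Poly (fun a => pth (cs a) (i a) (j a)) := by
  unfold pth
  have h1 : Poly (fun a => decide (isC (cs a) (i a) (j a) = true)) :=
    (poly_isC hc hi hj).congr fun a => by simp
  exact Poly.ite h1 (Poly.cons hi (Poly.cons (poly_midOf hc hi hj) (Poly.cons hj
    (Poly.const [])))) (Poly.cons hi (Poly.cons hj (Poly.const [])))

theorem poly_inst {n : α → ℕ} {cs : α → List (ℕ × ℕ × ℕ)} (hn : UPoly n) (hc : Poly cs) :
    Poly (fun a => inst (n a) (cs a)) := by
  unfold inst
  refine Poly.pair ?_ ?_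
  · refine poly_finGraph (N := n) (b := fun a i j => !(decide (i = j)) && !(isC (cs a) i j)) hn
      ?_ ?_
    · have hi : Poly (fun p : (α × ℕ) × ℕ => p.1.2) := Poly.snd (Poly.fst Poly.id)
      have hj : Poly (fun p : (α × ℕ) × ℕ => p.2) := Poly.snd Poly.id
      have hc' : Poly (fun p : (α × ℕ) × ℕ => cs p.1.1) := hc.comp (Poly.fst (Poly.fst Poly.id))
      exact Poly.and (Poly.not (Poly.decide_eq hi hj)) (Poly.not (poly_isC hc' hi hj))
    · intro a i j
      simp only [gr, Bool.and_eq_true, Bool.not_eq_true', decide_eq_false_iff_not, ne_eq,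
        Fin.ext_iff]
  · unfold paths
    have hr : Poly (fun a => List.range (n a)) := UPoly.range hn
    refine Poly.flatMap (F := fun a i => ((List.range (n a)).filter (fun j => decide (i < j))).map
      (fun j => pth (cs a) i j)) hr ?_
    have hr' : Poly (fun p : α × ℕ => List.range (n p.1)) := hr.comp (Poly.fst Poly.id)
    have hf : Poly (fun p : α × ℕ => (List.range (n p.1)).filter (fun j => decide (p.2 < j))) :=
      Poly.filter (l := fun p : α × ℕ => List.range (n p.1)) (p := fun p j => decide (p.2 < j)) hr'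
        (Poly.decide_lt (Poly.snd (Poly.fst Poly.id)) (Poly.snd Poly.id))
    refine Poly.map (F := fun (p : α × ℕ) j => pth (cs p.1) p.2 j) hf ?_
    exact poly_pth (hc.comp (Poly.fst (Poly.fst Poly.id))) (Poly.snd (Poly.fst Poly.id))
      (Poly.snd Poly.id)

end

theorem poly_li {α : Type} [TEnc α] {x : α → Lit ℕ} (hx : Poly x) : Poly (fun a => li (x a)) := by
  unfold li
  have hb : Poly (fun a => decide ((x a).1 = true)) := (Poly.fst hx).congr fun a => by simp
  have h2 : Poly (fun a => 2 * (x a).2) := Poly.mul (Poly.const 2) (Poly.snd hx)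
  exact Poly.ite hb (Poly.add (Poly.const 16) h2) (Poly.add (Poly.const 17) h2)

theorem poly_cons : Poly cons := by
  unfold cons
  have hid : Poly (fun φ : List Cl => φ) := Poly.id
  have hu : UPoly (fun φ : List Cl => φ.length) := UPoly.length hid
  have hL : Poly (fun φ : List Cl => φ.length) := Poly.length hid
  have h10 : Poly (fun φ : List Cl => 10 * φ.length) := Poly.mul (Poly.const 10) hL
  have h6 : Poly (fun φ : List Cl => 6 * φ.length) := Poly.mul (Poly.const 6) hL
  have r10 : Poly (fun φ : List Cl => List.range (10 * φ.length)) :=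
    UPoly.range (UPoly.mul (UPoly.const 10) hu)
  have r3 : Poly (fun φ : List Cl => List.range (3 * φ.length)) :=
    UPoly.range (UPoly.mul (UPoly.const 3) hu)
  have r1 : Poly (fun φ : List Cl => List.range φ.length) := UPoly.range hu
  have k10 : ∀ k : ℕ, Poly (fun p : List Cl × ℕ => k + 10 * p.1.length + p.2) := fun k =>
    Poly.add (Poly.add (Poly.const k) (h10.comp (Poly.fst Poly.id))) (Poly.snd Poly.id)
  have k6 : ∀ k : ℕ, Poly (fun p : List Cl × ℕ => k + 6 * p.1.length + 4 * p.2) := fun k =>
    Poly.add (Poly.add (Poly.const k) (h6.comp (Poly.fst Poly.id)))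
      (Poly.mul (Poly.const 4) (Poly.snd Poly.id))
  have k6' : ∀ k : ℕ, Poly (fun p : List Cl × (Cl × ℕ) => k + 6 * p.1.length + 4 * p.2.2) :=
    fun k => Poly.add (Poly.add (Poly.const k) (h6.comp (Poly.fst Poly.id)))
      (Poly.mul (Poly.const 4) (Poly.snd (Poly.snd Poly.id)))
  have hj : Poly (fun p : List Cl × ℕ => p.2) := Poly.snd Poly.id
  refine Poly.append (Poly.const _) (Poly.append (Poly.const _) (Poly.cons ?_ (Poly.append ?_
    (Poly.append ?_ (Poly.append ?_ (Poly.append ?_ (Poly.append ?_ ?_)))))))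
  · exact Poly.pair (Poly.const 6) (Poly.pair (Poly.const 4) (Poly.add (Poly.const 16) h10))
  · refine Poly.map (F := fun (φ : List Cl) (j : ℕ) => (16 + 10 * φ.length + j,
      (if j % 2 = 0 then 5 else 4), 17 + 10 * φ.length + j)) r10 ?_
    exact Poly.pair (k10 16) (Poly.pair (Poly.ite (Poly.decide_eq (Poly.mod hj (Poly.const 2))
      (Poly.const 0)) (Poly.const 5) (Poly.const 4)) (k10 17))
  · refine Poly.map (F := fun (φ : List Cl) (j : ℕ) => (16 + 10 * φ.length + j, 8, 16 + j)) r10 ?_
    exact Poly.pair (k10 16) (Poly.pair (Poly.const 8) (Poly.add (Poly.const 16) hj))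
  · refine Poly.map (F := fun (_ : List Cl) (x : ℕ) => (16 + 2 * x, 17 + 2 * x, 0)) r3 ?_
    have h2 : Poly (fun p : List Cl × ℕ => 2 * p.2) := Poly.mul (Poly.const 2) hj
    exact Poly.pair (Poly.add (Poly.const 16) h2) (Poly.pair (Poly.add (Poly.const 17) h2)
      (Poly.const 0))
  · have hc : Poly (fun p : List Cl × (Cl × ℕ) => p.2.1) := Poly.fst (Poly.snd Poly.id)
    have h0 : Poly (fun p : List Cl × (Cl × ℕ) => p.2.1.1) := Poly.fst hc
    have h1 : Poly (fun p : List Cl × (Cl × ℕ) => p.2.1.2.1) := Poly.fst (Poly.snd hc)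
    have h2 : Poly (fun p : List Cl × (Cl × ℕ) => p.2.1.2.2) := Poly.snd (Poly.snd hc)
    refine Poly.flatMap (F := fun (φ : List Cl) (p : Cl × ℕ) =>
      [(9, 16 + 6 * φ.length + 4 * p.2, li p.1.1), (9, 17 + 6 * φ.length + 4 * p.2, li p.1.2.1),
        (9, 18 + 6 * φ.length + 4 * p.2, li p.1.2.2)]) (Poly.zipIdx hid) ?_
    exact Poly.cons (Poly.pair (Poly.const 9) (Poly.pair (k6' 16) (poly_li h0)))
      (Poly.cons (Poly.pair (Poly.const 9) (Poly.pair (k6' 17) (poly_li h1)))
        (Poly.cons (Poly.pair (Poly.const 9) (Poly.pair (k6' 18) (poly_li h2))) (Poly.const [])))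
  · refine Poly.map (F := fun (φ : List Cl) (C : ℕ) => (16 + 6 * φ.length + 4 * C,
      17 + 6 * φ.length + 4 * C, 19 + 6 * φ.length + 4 * C)) r1 ?_
    exact Poly.pair (k6 16) (Poly.pair (k6 17) (k6 19))
  · refine Poly.map (F := fun (φ : List Cl) (C : ℕ) => (19 + 6 * φ.length + 4 * C,
      18 + 6 * φ.length + 4 * C, 10)) r1 ?_
    exact Poly.pair (k6 19) (Poly.pair (k6 18) (Poly.const 10))

theorem poly_red : Poly red := by
  unfold red
  refine poly_inst ?_ poly_cons
  unfold num
  exact UPoly.add (UPoly.const 17) (UPoly.mul (UPoly.const 20) (UPoly.length Poly.id))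

theorem poly_ne_true : Poly (fun y : List Bool => !(decide (y = [true]))) :=
  Poly.not (Poly.decide_eq Poly.id (Poly.const [true]))

/-! ### Hardness -/

theorem hardPr_reduction : HardPr (fun I : Inst => IsPathSystem I ∧ Consistent I)
    (fun I => ¬ Irreducible I) := by
  refine hardPr_SAT3b.trans (f := red) poly_red ?_ ?_
  · rintro φ ⟨_, hb, _⟩
    exact ⟨(red_spec hb).1, (red_spec hb).2.1⟩
  · rintro φ ⟨_, hb, _⟩
    exact (red_spec hb).2.2

end Pool.Agent.NPC.V11230.PS

namespace Pool.Agent.Results.MP_a08d7f_lc.ReductionNPHard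

open Pool.Agent.NPC Pool.Agent.NPC.V11230.PS

/-- **Deciding whether a consistent path system has a reduction is `NP`-hard**, so deciding
irreducibility is `coNP`-hard, and there is no polynomial-time algorithm for it unless `P = NP`. -/
theorem result :
    (∀ L : Set (List Bool), InNP L → ∃ f : List Bool → Inst,
      PolyTime (fun x => bits (f x)) ∧ (∀ x, IsPathSystem (f x) ∧ Consistent (f x)) ∧
        ∀ x, x ∈ L ↔ ∃ A B : Set ℕ, IsReduction (f x) A B) ∧
    (∀ L : Set (List Bool), InCoNP L → ∃ f : List Bool → Inst,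
      PolyTime (fun x => bits (f x)) ∧ (∀ x, IsPathSystem (f x) ∧ Consistent (f x)) ∧
        ∀ x, x ∈ L ↔ Irreducible (f x)) ∧
    (∀ A : List Bool → List Bool, PolyTime A →
      (∀ I : Inst, IsPathSystem I → Consistent I →
        (A (bits I) = [true] ↔ Irreducible I)) →
      ∀ L : Set (List Bool), InNP L → InP L) := by
  refine ⟨fun L hL => ?_, fun L hL => ?_, fun A hA h L hL => ?_⟩
  · obtain ⟨f, hf, hpr, hfL⟩ := hardPr_reduction L hL
    refine ⟨f, PC.toPolyTime hf, hpr, fun x => ?_⟩
    rw [hfL x]
    exact not_not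
  · obtain ⟨f, hf, hpr, hfL⟩ := hardPr_reduction _ hL
    refine ⟨f, PC.toPolyTime hf, hpr, fun x => ?_⟩
    have := hfL x
    rw [Set.mem_compl_iff] at this
    exact not_iff_not.1 this
  · obtain ⟨f, hf, hpr, hfL⟩ := hardPr_reduction L hL
    have h1 : PolyTime (fun x => bits (f x)) := PC.toPolyTime hf
    have h2 : PolyTime (fun x => A (bits (f x))) := H642R2.TMSim.polyTime_comp hA h1
    refine ⟨fun x => [!(decide (A (bits (f x)) = [true]))], polyTime_test h2 poly_ne_true, fun x => ?_⟩
    have h4 := h (f x) (hpr x).1 (hpr x).2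
    have h5 : x ∈ L ↔ ¬ Irreducible (f x) := hfL x
    rw [h5, ← h4]
    simp

end Pool.Agent.Results.MP_a08d7f_lc.ReductionNPHard
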